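import Pool.Agent.TH801.LG.LinB

/-! Linear relations between ordinates of zeros of zeta, with no hypothesis on the zeros; some of
the variables range over the same set (for example over all ordinates up to `T`).  There is an
absolute constant `C` with the following property.  Let `A_k` be sets of at least `η T log T`
ordinates in `(0, T]`, let `b = |c_j|` be the second largest modulus of the real coefficients (the
largest is `|c_i|`) and let `K s ≤ b`, where `K` depends on `η` and `m`.  Let `W` be a set of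
indices different from `i` and `j`, divided into `M` classes of `m` indices such that for different
`p`, `q` in the same class `A_p = A_q` and `c_p - c_q` is at most `s` and at least `K b / (T log T)`
in modulus.  Then, uniformly in `y`, the number of tuples `x` with `|∑ c_k x_k - y| ≤ s / log T` is
at most the trivial bound `∏ |A_k| / (T log T)` times
`K s / (∑_{k ≠ i} c_k ^ 2) ^ (1/2) + (C / η ^ 2) (C / (η m)) ^ (m M / 2)`. -/

set_option autoImplicit false

namespace Pool.Agent.Results.MP_0ec205_nt.RelationsEqualSets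

open Finset

theorem result : ∃ C : ℝ, 0 < C ∧ ∀ (η : ℝ) (m : ℕ), 0 < η → 1 ≤ m →
    ∃ K T₀ : ℝ, 0 < K ∧ ∀ T : ℝ, T₀ ≤ T →
    ∀ (n : ℕ) (c : Fin n → ℝ) (A : Fin n → Finset ℝ),
      (∀ k, ∀ γ ∈ A k, 0 < γ ∧ γ ≤ T ∧ ∃ ρ : ℂ, ρ.im = γ ∧ 0 < ρ.re ∧ ρ.re < 1 ∧
        riemannZeta ρ = 0) →
      (∀ k, η * (T * Real.log T) ≤ (A k).card) →
      ∀ i j, i ≠ j → |c j| ≤ |c i| → (∀ k, k ≠ i → |c k| ≤ |c j|) → c j ≠ 0 →
      ∀ s : ℝ, 0 < s → K * s ≤ |c j| → ∀ (W : Finset (Fin n)) (M : ℕ) (σ : Fin n → ℕ),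
      i ∉ W → j ∉ W → (∀ p ∈ W, σ p < M) →
      (∀ l, l < M → (W.filter (fun p => σ p = l)).card = m) →
      (∀ p ∈ W, ∀ q ∈ W, p ≠ q → σ p = σ q → A p = A q ∧ |c p - c q| ≤ s ∧
        K * |c j| ≤ |c p - c q| * (T * Real.log T)) → ∀ y : ℝ,
      (((Fintype.piFinset A).filter (fun x : Fin n → ℝ => |∑ k, c k * x k - y| ≤
        s / Real.log T)).card : ℝ) ≤
      (K * s / Real.sqrt (∑ k ∈ univ.erase i, c k ^ 2) +
        C / η ^ 2 * Real.sqrt (C / (η * m)) ^ (m * M)) *
        (∏ k, ((A k).card : ℝ)) / (T * Real.log T) :=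
  Pool.Agent.TH801.LG.linB

end Pool.Agent.Results.MP_0ec205_nt.RelationsEqualSets
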