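import Pool.Agent.TH352.SU.Main

/-! Assume RH.  The values of a linear form with `m ≥ 2` nonzero real coefficients at the ordinates
of zeta up to `T` are at least twice as many as forced by the size of the set of ordinates; the
same holds locally for the sum of the set of ordinates and an arbitrary dense set of reals. -/

set_option autoImplicit false

namespace Pool.Agent.Results.MP_0ec205_nt.SumsetsOfOrdinates

open Pool.Agent.TH352.SU Pool.Agent.H452R4.LI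

theorem result (hRH : RiemannHypothesis) :
    (∀ (m : ℕ), 2 ≤ m → ∀ r : Fin m → ℝ, (∀ i, r i ≠ 0) → ∀ (j : Fin m) (ε : ℝ), 0 < ε →
      ∃ T1 : ℝ, ∀ T : ℝ, T1 ≤ T →
        (1 - ε) * ((∑ i, |r i|) / |r j| * (T * Real.log T / Real.pi)) ≤
          (({x : ℝ | ∃ γ : Fin m → ℝ, (∀ i, 0 < γ i ∧ γ i ≤ T ∧
            riemannZeta (1 / 2 + Complex.I * (γ i : ℂ)) = 0) ∧ x = ∑ i, r i * γ i}.ncard : ℕ) : ℝ)) ∧
    (∀ ε δ κ K η : ℝ, 0 < ε → 0 < δ → δ ≤ κ → 1 ≤ K → 0 < η → ∃ T1 : ℝ, ∀ T : ℝ, T1 ≤ T →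
      ∀ (B : Finset ℝ) (c : ℝ), (∀ b ∈ B, |b| ≤ K * T) →
        (∀ x : ℝ, ((B.filter (fun b => x ≤ b ∧ b < x + 1)).card : ℝ) ≤ K * Real.log T) →
        η * T * Real.log T ≤ B.card → |c| ≤ K * T → (∀ b ∈ B, κ * T ≤ c - δ * T / 2 - b) →
        (1 - ε) * (δ * T * Real.log T / Real.pi) ≤
          (({x : ℝ | |x - c| ≤ δ * T / 2 ∧ ∃ b ∈ B, ∃ γ : ℝ,
            riemannZeta (1 / 2 + Complex.I * (γ : ℂ)) = 0 ∧ x = b + γ}.ncard : ℕ) : ℝ)) := by
  classical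
  have hRHs : RH0 := by
    intro s h0 h1 hz
    refine hRH s hz ?_ ?_
    · rintro ⟨n, hn⟩
      rw [hn] at h0
      simp at h0
      have : (0 : ℝ) ≤ n := n.cast_nonneg
      linarith
    · rintro rfl
      simp at h1
  refine ⟨fun m hm r hr j ε hε => lower hRHs hm r hr j ε hε, ?_⟩
  intro ε δ κ K η hε hδ hδκ hK hη
  obtain ⟨T1, hT1⟩ := kl hRHs genm_holds (min ε 1) δ κ K η (lt_min hε one_pos) (min_le_right _ _) hδ
    hδκ hK hη
  refine ⟨max T1 (max 1 (1 / κ)), fun T hT B c hB hd hBc hc hw => ?_⟩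
  have gT1 : T1 ≤ T := (le_max_left _ _).trans hT
  have g1 : 1 ≤ T := ((le_max_left _ _).trans (le_max_right _ _)).trans hT
  have gκ : 1 / κ ≤ T := ((le_max_right _ _).trans (le_max_right _ _)).trans hT
  have hκ : 0 < κ := lt_of_lt_of_le hδ hδκ
  rw [div_le_iff₀ hκ] at gκ
  have hT0 : 0 < T := by linarith
  have hδT : 0 < δ * T := by positivity
  have hKT : 0 < K * T := by positivity
  have hcb := abs_le.1 hc
  -- the set is finite
  have hfin : {x : ℝ | |x - c| ≤ δ * T / 2 ∧ ∃ b ∈ B, ∃ γ : ℝ,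
      riemannZeta (1 / 2 + Complex.I * (γ : ℂ)) = 0 ∧ x = b + γ}.Finite := by
    have h1 : {x : ℝ | |x - c| ≤ δ * T / 2 ∧ ∃ b ∈ B, ∃ γ : ℝ,
        riemannZeta (1 / 2 + Complex.I * (γ : ℂ)) = 0 ∧ x = b + γ} ⊆
        (fun p : ℝ × ℝ => p.1 + p.2) '' ((B : Set ℝ) ×ˢ OS ((2 * K + δ) * T)) := by
      rintro x ⟨h1, b, hb, γ, hγ, rfl⟩
      have h2 := abs_le.1 h1
      have h3 := hw b hb
      have h4 := abs_le.1 (hB b hb)
      exact ⟨(b, γ), ⟨hb, ⟨by linarith, by linarith, hγ⟩⟩, rfl⟩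
    exact (((Finset.finite_toSet B).prod (OS_finite _)).image _).subset h1
  have h1 := hT1 T gT1 hfin.toFinset B c ⟨hB, hd, hBc, hc, hw, ?_, ?_⟩
  · rw [Set.ncard_eq_toFinset_card _ hfin]
    refine le_trans ?_ h1
    have hL : 0 ≤ Real.log T := Real.log_nonneg g1
    apply mul_le_mul_of_nonneg_right _ (by positivity)
    linarith [min_le_left ε 1]
  · intro b hb γ hγ h2
    rw [Set.Finite.mem_toFinset]
    exact ⟨h2, b, hb, γ, hγ, rfl⟩
  · intro s hs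
    rw [Set.Finite.mem_toFinset] at hs
    exact hs.1

end Pool.Agent.Results.MP_0ec205_nt.SumsetsOfOrdinates
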